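import Pool.Agent.Run7.h740.DLaw

/-!
# Goldbach partitions `q + q'` with `p_{q+2} + N` prime, for every even number with many Goldbach partitions and random
multiples `N` of a small primorial; random sums

The random integers `v j < b ^ d` have `d` digits in base `b`, and the digits of each of them (1) are the labels of a walk
between two vertices of a graph, which may be infinite, or (2) form a correctly nested word, or (3) form a Markov random field
on an arbitrary graph of positions of bounded degree (`Law`, the classes of laws of helper927; the uniform distribution on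
`[0, b ^ d)` is a special case of (3)). The laws may be of different kinds.

`∑ v ∈ Fintype.piFinset (fun _ => range (b ^ d)), (if P v then 0 else ∏ j, μ j (v j))` is the probability that the random
integers do not have the property `P`.
-/

set_option autoImplicit false

open Finset

namespace Pool.Agent.Results.MP_0ec542_nt.DigitLawIndices

open Pool.Agent.Run7.h740.DL (Law V Nv)

/-- the `k`-th prime, `p 1 = 2` -/
noncomputable def p (k : ℕ) : ℕ := Nat.nth Nat.Prime (k - 1)

/-- the primes `q < x` such that `x - q` is prime -/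
def Part (x : ℕ) : Finset ℕ := (range x).filter (fun q => q.Prime ∧ (x - q).Prime)

/-- the `q ∈ S` such that `p_{q+2} + N` is prime -/
noncomputable def Good (S : Finset ℕ) (N : ℤ) : Finset ℕ := S.filter (fun q => (N + (p (q + 2) : ℕ)).toNat.Prime)

/-- the `q ∈ S` such that `N 0 - q` and `p_{q+2} + N 1` are prime -/
noncomputable def Good2 (S : Finset ℕ) (N : Fin 2 → ℤ) : Finset ℕ :=
  S.filter (fun q => (N 0 - q).toNat.Prime ∧ (N 1 + (p (q + 2) : ℕ)).toNat.Prime)

open Classical in
/-- Let `𝓕 j`, `j < 2`, be families of distributions in `Law b` (digits which label walks in a graph; correctly nested words;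
Markov random fields; they may be of different kinds), let `v j < b ^ d` be independent random integers whose distributions
`μ j` belong to the families `𝓕 j`, let `y` be between `θ log d` and `K₁ log d` (`θ > 0` is arbitrary), `M` the product of the
primes `≤ y`, `|c j| ≤ B b ^ d`, `1 ≤ h j ≤ d ^ J`, `N_j = M h_j (c_j + κ_j v_j)`, and let `x` be ANY integer with
`b ^ d ≤ x d ^ C`, `x ≤ b ^ d d ^ C`.
(1) For every set `S` of at least `x / d ^ A` primes `q < x` such that `x - q` is prime (for instance all of them, if there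
are so many): with a probability of at least `1 - ε`, if `N_1 > 0`, the number of the `q ∈ S` for which `p_{q+2} + N_1` is
prime differs from `E = #S / (V y log b ^ d)` by at most `ε E`.
(2) For every set `S` of at least `x / d ^ A` primes `q ≤ x`: with a probability of at least `1 - ε`, if `N_0 > x` and
`N_1 > 0`, the number of the `q ∈ S` for which `N_0 - q` and `p_{q+2} + N_1` are prime differs from
`E = #S / (V y log b ^ d) ^ 2` by at most `ε E`. -/
theorem result : ∀ (b : ℕ), 2 ≤ b → ∀ (𝓕 : Fin 2 → ℕ → (ℕ → ℝ) → Prop), (∀ j, Law b (𝓕 j)) → ∀ κ : Fin 2 → ℤ,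
    (∀ j, κ j ≠ 0) → ∀ (B J A C K₁ : ℕ) (θ : ℝ), 0 < θ → ∀ ε : ℝ, 0 < ε → ε ≤ 1 → ∃ d₀ : ℕ, ∀ d : ℕ, d₀ ≤ d →
    ∀ μ : Fin 2 → ℕ → ℝ, (∀ j, 𝓕 j d (μ j)) →
    ∀ y : ℕ, θ * Real.log d ≤ y → y ≤ K₁ * Real.log d →
    ∀ c : Fin 2 → ℤ, (∀ j, |c j| ≤ B * (b : ℤ) ^ d) → ∀ h : Fin 2 → ℕ, (∀ j, 1 ≤ h j ∧ h j ≤ d ^ J) →
    ∀ x : ℕ, b ^ d ≤ x * d ^ C → x ≤ b ^ d * d ^ C →
      (∀ S : Finset ℕ, S ⊆ Part x → x ≤ S.card * d ^ A →
        ∑ v ∈ range (b ^ d), (if 0 < Nv y (h 1) (c 1) (κ 1) v →
          |((Good S (Nv y (h 1) (c 1) (κ 1) v)).card : ℝ) - S.card / (V y * (d * Real.log b))| ≤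
            ε * (S.card / (V y * (d * Real.log b))) then 0 else μ 1 v) ≤ ε) ∧
      (∀ S : Finset ℕ, S ⊆ Icc 1 x → (∀ q ∈ S, q.Prime) → x ≤ S.card * d ^ A →
        ∑ v ∈ Fintype.piFinset (fun _ : Fin 2 => range (b ^ d)), (if (x : ℤ) < Nv y (h 0) (c 0) (κ 0) (v 0) →
          0 < Nv y (h 1) (c 1) (κ 1) (v 1) →
          |((Good2 S (fun j => Nv y (h j) (c j) (κ j) (v j))).card : ℝ) - S.card / (V y * (d * Real.log b)) ^ 2| ≤
            ε * (S.card / (V y * (d * Real.log b)) ^ 2) then 0 else ∏ j, μ j (v j)) ≤ ε) := by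
  intro b hb 𝓕 hF κ hκ B J A C K₁ θ hθ ε hε hε1
  obtain ⟨d₁, h1⟩ := Pool.Agent.Run7.h740.DL.gen 2 hb hF κ hκ B J (A + C) (C + 10) K₁ θ hθ ε hε hε1
  obtain ⟨d₄, h4⟩ := Pool.Agent.Run7.h740.DL.gen 1 hb (𝓕 := fun _ => 𝓕 1) (fun _ => hF 1) (fun _ => κ 1) (fun _ => hκ 1)
    B J (A + C) (C + 10) K₁ θ hθ ε hε hε1
  obtain ⟨d₂, h2⟩ := Pool.Agent.Run7.h740.DL.size b C hb
  obtain ⟨d₃, h3⟩ := Pool.Agent.N625.PT.X_large b C hb
  obtain ⟨n₂, hn₂⟩ := Pool.Agent.Y877.SX.nth_le_log
  obtain ⟨n₃, hn₃⟩ := Pool.Agent.H373R2.T7.ev_L' 6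
  refine ⟨max (max d₁ d₂) (max (max d₃ d₄) (max n₂ n₃)), fun d hd μ hμ y hy1 hy2 c hc h hh x hx1 hx2 => ?_⟩
  have hdn : d ≤ x := h3 d (by omega) x hx1
  have hL := hn₃ x (by omega)
  have hx0 : (0 : ℝ) ≤ x := Nat.cast_nonneg x
  have hx6 : 1 ≤ x := by
    rcases Nat.eq_zero_or_pos x with h0 | h0
    · rw [h0] at hL
      simp at hL
      linarith
    · exact h0
  have hps : ∀ q : ℕ, q ≤ x → p (q + 2) ≤ b ^ d * d ^ (C + 10) := by
    intro q hq
    refine h2 d (by omega) x hx2 _ ?_
    refine (hn₂ x (by omega) (q + 2 - 1) (by omega)).trans ?_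
    apply mul_le_mul_of_nonneg_left _ hx0
    exact pow_le_pow_right₀ (by linarith) (by norm_num)
  have hqs : ∀ q : ℕ, q ≤ x → q ≤ b ^ d * d ^ (C + 10) := by
    intro q hq
    refine h2 d (by omega) x hx2 _ ?_
    have e2 : (q : ℝ) ≤ x := by exact_mod_cast hq
    have e3 : (1 : ℝ) ≤ Real.log x ^ 5 := one_le_pow₀ (by linarith)
    nlinarith
  have hpinj : ∀ S : Finset ℕ, Set.InjOn (fun q => p (q + 2)) S := by
    intro S q _ q' _ he
    have e3 := Pool.Agent.Run7.h740.DL.nth_inj he
    omega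
  have hcard : ∀ S : Finset ℕ, x ≤ S.card * d ^ A → b ^ d ≤ S.card * d ^ (A + C) := by
    intro S hS
    calc b ^ d ≤ x * d ^ C := hx1
      _ ≤ (S.card * d ^ A) * d ^ C := Nat.mul_le_mul_right _ hS
      _ = _ := by rw [pow_add]; ring
  constructor
  · intro S hS hSc
    have hSm : ∀ q ∈ S, q < x ∧ q.Prime ∧ (x - q).Prime := by
      intro q hq
      have := hS hq
      unfold Part at this
      rw [mem_filter, mem_range] at this
      exact this
    have hmain := h4 d (by omega) (fun _ => μ 1) (fun _ => hμ 1) y hy1 hy2 (fun _ => c 1) (fun _ => hc 1) (fun _ => h 1)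
      (fun _ => hh 1) (b ^ d * d ^ (C + 10)) le_rfl S (fun _ q => p (q + 2)) (fun _ => hpinj S)
      (fun _ q hq => ⟨Nat.prime_nth_prime _, hps q (hSm q hq).1.le⟩) (hcard S hSc) (fun _ => 1) (fun _ => Or.inl rfl)
    obtain ⟨F, hF'⟩ : ∃ F : ℕ → ℝ, F = fun v => (if 0 < Nv y (h 1) (c 1) (κ 1) v →
          |((Good S (Nv y (h 1) (c 1) (κ 1) v)).card : ℝ) - S.card / (V y * (d * Real.log b))| ≤
            ε * (S.card / (V y * (d * Real.log b))) then 0 else μ 1 v) := ⟨_, rfl⟩
    have hre : ∑ v ∈ range (b ^ d), F v = ∑ v ∈ Fintype.piFinset (fun _ : Fin 1 => range (b ^ d)), F (v 0) := by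
      refine sum_nbij' (fun v _ => v) (fun v => v 0) ?_ ?_ ?_ ?_ ?_
      · intro v hv
        rw [Fintype.mem_piFinset]
        exact fun _ => hv
      · intro v hv
        exact (Fintype.mem_piFinset.1 hv) 0
      · intro v _
        rfl
      · intro v _
        funext j
        rw [Subsingleton.elim j 0]
      · intro v _
        rfl
    have hgoal : ∑ v ∈ range (b ^ d), F v ≤ ε := by
      rw [hre]
      refine le_trans (sum_le_sum fun v _ => ?_) hmain
      obtain ⟨L, hsv⟩ := Pool.Agent.Run7.h740.DL.siev_of (hF 1)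
      have hprod : 0 ≤ ∏ j : Fin 1, μ 1 (v j) := prod_nonneg fun j _ => hsv.nonneg d (μ 1) (hμ 1) _
      rw [hF']
      simp only
      split_ifs with c1 c2 c2
      · exact le_rfl
      · exact hprod
      · exfalso
        apply c1
        intro hpos
        have hres := c2 (fun j q _ => by
          have e2 : (0 : ℤ) ≤ (p (q + 2) : ℕ) := Int.natCast_nonneg _
          rw [Subsingleton.elim j 0]
          linarith)
        have hfe : S.filter (fun q => ∀ j : Fin 1, (Nv y (h 1) (c 1) (κ 1) (v j) + 1 * (p (q + 2) : ℕ)).toNat.Prime) =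
            Good S (Nv y (h 1) (c 1) (κ 1) (v 0)) := by
          unfold Good
          apply filter_congr
          intro q _
          rw [Fin.forall_fin_one, one_mul]
        rw [hfe, pow_one] at hres
        exact hres
      · rw [Fin.prod_univ_one]
    rw [hF'] at hgoal
    exact hgoal
  · intro S hS hSp hSc
    obtain ⟨f, hf⟩ : ∃ f : Fin 2 → ℕ → ℕ, f = ![fun q => q, fun q => p (q + 2)] := ⟨_, rfl⟩
    have hf0 : ∀ q, f 0 q = q := fun q => by rw [hf]; rfl
    have hf1 : ∀ q, f 1 q = p (q + 2) := fun q => by rw [hf]; rfl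
    obtain ⟨σ, hσ⟩ : ∃ σ : Fin 2 → ℤ, σ = ![-1, 1] := ⟨_, rfl⟩
    have hσ0 : σ 0 = -1 := by rw [hσ]; rfl
    have hσ1 : σ 1 = 1 := by rw [hσ]; rfl
    have hmain := h1 d (by omega) μ hμ y hy1 hy2 c hc h hh (b ^ d * d ^ (C + 10)) le_rfl S f (by
        intro j
        fin_cases j
        · intro q _ q' _ he
          simp only [Fin.zero_eta, hf0] at he
          exact he
        · intro q hq q' hq' he
          simp only [Fin.mk_one, hf1] at he
          exact hpinj S hq hq' he) (by
        intro j q hq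
        have e1 := (mem_Icc.1 (hS hq)).2
        fin_cases j
        · simp only [Fin.zero_eta, hf0]
          exact ⟨hSp q hq, hqs q e1⟩
        · simp only [Fin.mk_one, hf1]
          exact ⟨Nat.prime_nth_prime _, hps q e1⟩) (hcard S hSc) σ (by
        intro j
        fin_cases j
        · exact Or.inr hσ0
        · exact Or.inl hσ1)
    refine le_trans (sum_le_sum fun v _ => ?_) hmain
    have hex := fun j => Pool.Agent.Run7.h740.DL.siev_of (hF j)
    choose L hsv using hex
    have hprod : 0 ≤ ∏ j, μ j (v j) := prod_nonneg fun j _ => (hsv j).nonneg d (μ j) (hμ j) _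
    split_ifs with c1 c2 c2
    · exact le_rfl
    · exact hprod
    · exfalso
      apply c1
      intro hpos0 hpos1
      have hres := c2 (fun j q hq => by
        have e1 := (mem_Icc.1 (hS hq)).2
        fin_cases j
        · simp only [Fin.zero_eta, hf0, hσ0]
          have e2 : (q : ℤ) ≤ x := by exact_mod_cast e1
          linarith
        · simp only [Fin.mk_one, hf1, hσ1]
          have e2 : (0 : ℤ) ≤ (p (q + 2) : ℕ) := Int.natCast_nonneg _
          linarith)
      have hfe : S.filter (fun q => ∀ j : Fin 2, (Nv y (h j) (c j) (κ j) (v j) + σ j * (f j q : ℕ)).toNat.Prime) =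
          Good2 S (fun j => Nv y (h j) (c j) (κ j) (v j)) := by
        unfold Good2
        apply filter_congr
        intro q _
        rw [Fin.forall_fin_two, hf0, hf1, hσ0, hσ1, one_mul, neg_one_mul, ← sub_eq_add_neg]
      rw [hfe] at hres
      exact hres
    · exact le_rfl

end Pool.Agent.Results.MP_0ec542_nt.DigitLawIndices
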