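import Pool.Agent.Run7.h414.HL.G
import Pool.Agent.N625.PT.X20

/-!
# EVERY large `n`: the number of the primes `q < 2 n` with `2 n - q + N₀` and `p_{q+2} + N₁` prime, where the summand is displaced
# by, and the number `2` of the twin prime condition is replaced by, random multiples of a small primorial

The digits of the random integer `v` are given by a determinantal random set `S` of positions (a determinantal point process
with an arbitrary Hermitian kernel): the digit number `i` is `y i` if `i ∈ S` and `x i ≠ y i` otherwise. Examples (their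
existence is not used and not formalised): the edges of a uniform spanning tree of a graph with `d` edges; stationary
determinantal processes with any symbol which is not almost everywhere `0` or almost everywhere `1` (for example the discrete
sine process with any density); independent digits, for example the integers all of whose digits are `0` or `1`.

Definitions used (in `Pool.Agent.Run7.h414.DP.Law` and `Pool.Agent.Run7.h414.DP.Fam`): `DetLaw`, `GoodPos`, `DetDigits`
(used with `t = 0`: `0 ≤ p v ≤ μ v` with the law `μ` of an integer with determinantal digits).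

Method: the characteristic function is `det (1 + D A)`; the inequality `|det N|² ≤ exp (tr N* N - k)` for
`N = 1 + B D B*`, `A = B* B`, bounds it by `exp (- E)` with an energy `E` which is at least a constant times the number of
the places where the frequency is far from the rational numbers with small denominators. With this input the sieve and the
circle method of the starting library for exchangeable blocks (`Pool.Agent.N625.PT`, in the form for classes of laws of
`Pool.Agent.Run7.h672.XC`) go through.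
-/

set_option autoImplicit false

open Finset
open Pool.Agent.Run7.h414.DP (DetDigits)
open Pool.Agent.Run7.h414.HL (det_tuple' bad_few pr pr_prime pr_lt pr_strict pr_inj pr_le)

namespace Pool.Agent.Results.MP_0ec542_nt.IndexConditionOnAverage

/-- the `j`-th prime, `j ≥ 1` -/
noncomputable def p (j : ℕ) : ℕ := Nat.nth Nat.Prime (j - 1)

/-- the product of `1 - 1/q` over the primes `q ≤ y` -/
noncomputable def V (y : ℕ) : ℝ := ∏ q ∈ (Icc 1 y).filter Nat.Prime, (1 - 1 / (q : ℝ))

/-- the multiple of the product of the primes `≤ y` given by the integers `h` and `c + κ v` -/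
def Nv (y h : ℕ) (c κ : ℤ) (v : ℕ) : ℤ := ((primorial y * h : ℕ) : ℤ) * (c + κ * v)

/-- the primes `q < 2 n` such that `2 n - q` is prime to `D` -/
def Adm (D n : ℕ) : Finset ℕ := (range (2 * n)).filter (fun q : ℕ => q.Prime ∧ (2 * n - q).Coprime D)

/-- the number of the primes `q < 2 n` such that `2 n - q + N 0` and `p_{q+2} + N 1` are prime -/
noncomputable def Rep (n : ℕ) (N : Fin 2 → ℤ) : ℝ :=
  ((range (2 * n)).filter (fun q : ℕ => q.Prime ∧ (2 * (n : ℤ) - q + N 0).toNat.Prime ∧ ((p (q + 2) : ℤ) + N 1).toNat.Prime)).card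

lemma class_exists (D n : ℕ) (hD : D ≠ 0) : ∃ a : ℕ, ∀ l : ℕ, l.Prime → l ∣ D → ¬ a ≡ 0 [MOD l] ∧ ¬ a ≡ 2 * n [MOD l] := by
  classical
  obtain ⟨a, ha⟩ := Nat.chineseRemainderOfFinset (fun l => if 2 * n ≡ 1 [MOD l] then 2 else 1) (fun l => l) D.primeFactors
    (fun l hl => (Nat.prime_of_mem_primeFactors hl).ne_zero) (by
      intro l hl l' hl' hne
      exact (Nat.coprime_primes (Nat.prime_of_mem_primeFactors hl) (Nat.prime_of_mem_primeFactors hl')).2 hne)
  refine ⟨a, fun l hl hlD => ?_⟩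
  have h1 := ha l (Nat.mem_primeFactors.2 ⟨hl, hlD, hD⟩)
  have hl2 := hl.two_le
  have h10 : ¬ 1 ≡ 0 [MOD l] := by
    intro h
    have := (Nat.modEq_zero_iff_dvd).1 h
    exact hl.one_lt.ne' (Nat.dvd_one.1 this)
  by_cases hn : 2 * n ≡ 1 [MOD l]
  · simp only [hn, if_true] at h1
    have hne2 : l ≠ 2 := by
      rintro rfl
      unfold Nat.ModEq at hn
      omega
    constructor
    · intro h
      have h2 : 2 ≡ 0 [MOD l] := h1.symm.trans h
      have h3 := (Nat.modEq_zero_iff_dvd).1 h2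
      exact hne2 ((Nat.prime_dvd_prime_iff_eq hl Nat.prime_two).1 h3)
    · intro h
      have h2 : 2 ≡ 1 [MOD l] := (h1.symm.trans h).trans hn
      have h3 : 1 + 1 ≡ 0 + 1 [MOD l] := h2
      exact h10 (Nat.ModEq.add_right_cancel' 1 h3)
  · simp only [hn, if_false] at h1
    exact ⟨fun h => h10 (h1.symm.trans h), fun h => hn ((h1.symm.trans h).symm)⟩

/-- Let `b ≥ 2`, `L` and `η > 0`, and let `v j < b ^ d`, `j < 2`, be independent random integers with `d` determinantal digits
in base `b` (`DetDigits b L η 0 d (μ j)`), let `y` be between `θ log d` and `K₁ log d` (`θ > 0` is arbitrary), `M` the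
product of the primes `≤ y` (a power of `d` only), `|c j| ≤ B b ^ d`, `1 ≤ h j ≤ d ^ J`, `N_j = M h_j (c_j + κ_j v_j)`, and
let `n` be ANY integer with `b ^ d ≤ n d ^ C`, `n ≤ b ^ d d ^ C`. Let `A` be the set of the primes `q < 2 n` such that `2 n - q`
is prime to `M h_0`. It has at least `n / d ^ (2 K₁ + J + 4)` elements. Up to a probability of at most `ε`, if all `N_j > 0`,
then the number of the primes `q < 2 n` such that `2 n - q + N_0` and `p_{q+2} + N_1` are prime differs from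
`E = #A / (V y log b ^ d) ^ 2` by at most `ε E`. -/
theorem result : ∀ b L : ℕ, 2 ≤ b → ∀ η : ℝ, 0 < η → ∀ (κ : Fin 2 → ℤ), (∀ j, κ j ≠ 0) →
    ∀ (B J C K₁ : ℕ) (θ : ℝ), 0 < θ → ∀ ε : ℝ, 0 < ε → ε ≤ 1 → ∃ d₀ : ℕ, ∀ d : ℕ, d₀ ≤ d →
    ∀ μ : Fin 2 → ℕ → ℝ, (∀ j, DetDigits b L η 0 d (μ j)) →
    ∀ y : ℕ, θ * Real.log d ≤ y → y ≤ K₁ * Real.log d →
    ∀ c : Fin 2 → ℤ, (∀ j, |c j| ≤ B * (b : ℤ) ^ d) → ∀ h : Fin 2 → ℕ, (∀ j, 1 ≤ h j ∧ h j ≤ d ^ J) →
    ∀ n : ℕ, b ^ d ≤ n * d ^ C → n ≤ b ^ d * d ^ C →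
      n ≤ (Adm (primorial y * h 0) n).card * d ^ (2 * K₁ + J + 4) ∧
      ∑ v ∈ Fintype.piFinset (fun _ : Fin 2 => range (b ^ d)), (if (∀ j, 0 < Nv y (h j) (c j) (κ j) (v j)) →
        |Rep n (fun j => Nv y (h j) (c j) (κ j) (v j)) - (Adm (primorial y * h 0) n).card / (V y * (d * Real.log b)) ^ 2| ≤
          ε * ((Adm (primorial y * h 0) n).card / (V y * (d * Real.log b)) ^ 2)
        then 0 else ∏ j, μ j (v j)) ≤ ε := by
  classical
  intro b L hb η hη κ hκ B J C K₁ θ hθ ε hε hε1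
  obtain ⟨K, hK⟩ : ∃ K, K = 2 * K₁ + J + 1 := ⟨_, rfl⟩
  obtain ⟨k0, h0⟩ := det_tuple' b L hb η hη 2 κ hκ B J (2 * K₁ + J + 8) (C + 4) (2 * K₁ + J) K₁ θ hθ ε hε hε1
  obtain ⟨k1, h1⟩ := pr_le b C hb
  obtain ⟨k2, h2⟩ := Pool.Agent.N625.PT.X_large b C hb
  obtain ⟨k3, h3⟩ := Pool.Agent.N625.PT.log_low b C hb
  obtain ⟨k4, h4⟩ := Pool.Agent.N625.PT.log_X b (C + 1) hb
  obtain ⟨k5, h5⟩ := Pool.Agent.N625.PT.ap_window K 1 le_rfl
  refine ⟨max (max k0 k1) (max (max k2 k3) (max (max k4 k5) (max 8 (4 ^ K)))), fun d hd μ hμ y hy1 hy2 c hc h hh n hn1 hn2 => ?_⟩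
  have hd8 : 8 ≤ d := by omega
  have hdr : (8 : ℝ) ≤ d := by exact_mod_cast hd8
  have hd0 : (0 : ℝ) < d := by linarith
  have hdK : 4 ^ K ≤ d := by omega
  have hdn := h2 d (by omega) n hn1
  have hpr := h1 d (by omega) n hn1 hn2
  have hlow := h3 d (by omega) n hn1
  have hD : ∀ j, 1 ≤ primorial y * h j ∧ primorial y * h j ≤ d ^ (2 * K₁ + J) := fun j =>
    ⟨Nat.mul_pos (primorial_pos y) (hh j).1, Pool.Agent.N625.PT.mult_small K₁ J d y (h j) (by omega) hy2 (hh j).2⟩
  obtain ⟨D, hDd⟩ : ∃ D, D = primorial y * h 0 := ⟨_, rfl⟩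
  have hD1 : 1 ≤ D := by rw [hDd]; exact (hD 0).1
  have hD2 : D ≤ d ^ (2 * K₁ + J) := by rw [hDd]; exact (hD 0).2
  obtain ⟨I, hI⟩ : ∃ I, I = Adm (primorial y * h 0) n := ⟨_, rfl⟩
  obtain ⟨X, hX⟩ : ∃ X, X = 2 * n - 1 := ⟨_, rfl⟩
  have hXn : n ≤ X := by omega
  have hX0 : (0 : ℝ) < X := by exact_mod_cast (by omega : 0 < X)
  have hn0 : (0 : ℝ) < n := by exact_mod_cast (by omega : 0 < n)
  have hlogX1 : (d : ℝ) / 4 ≤ Real.log X := hlow.trans (Real.log_le_log hn0 (by exact_mod_cast hXn))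
  have hlogX2 : Real.log X ≤ (d : ℝ) ^ 2 := h4 d (by omega) X (by
    calc X ≤ 2 * n := by omega
      _ ≤ d * (b ^ d * d ^ C) := Nat.mul_le_mul (by omega) hn2
      _ = _ := by rw [pow_succ]; ring)
  have hL0 : 0 < Real.log X := by linarith
  have hDL : (D : ℝ) ≤ Real.log X ^ K := by
    have e1 : (D : ℝ) ≤ (d : ℝ) ^ (2 * K₁ + J) := by exact_mod_cast hD2
    refine e1.trans ?_
    have g2 : ((d : ℝ) / 4) ^ K ≤ Real.log X ^ K := pow_le_pow_left₀ (by positivity) hlogX1 _
    refine le_trans ?_ g2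
    rw [div_pow, le_div_iff₀ (by positivity), hK, pow_succ (d : ℝ)]
    have g3 : ((4 : ℝ)) ^ K ≤ d := by exact_mod_cast hdK
    rw [hK] at g3
    exact mul_le_mul_of_nonneg_left g3 (by positivity)
  obtain ⟨a, ha⟩ := class_exists D n (by omega)
  have hcop : a.Coprime D := by
    by_contra hcop
    obtain ⟨l, hlp, hla, hlb⟩ := Nat.Prime.not_coprime_iff_dvd.1 hcop
    exact (ha l hlp hlb).1 ((Nat.modEq_zero_iff_dvd).2 hla)
  have hwin := h5 X (by omega) D hD1 hDL a hcop 0 (by omega) (by omega)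
  have hsubset : (Ioc 0 X).filter (fun r : ℕ => r.Prime ∧ r ≡ a [MOD D]) ⊆ I := by
    intro r hr
    rw [mem_filter, mem_Ioc] at hr
    rw [hI]
    unfold Adm
    rw [mem_filter, mem_range, ← hDd]
    refine ⟨by omega, hr.2.1, ?_⟩
    by_contra hcop
    obtain ⟨l, hlp, hla, hlb⟩ := Nat.Prime.not_coprime_iff_dvd.1 hcop
    apply (ha l hlp hlb).2
    have e1 : r ≡ 2 * n [MOD l] := (Nat.modEq_iff_dvd' (by omega)).2 hla
    exact (hr.2.2.of_dvd hlb).symm.trans e1
  have hIc : (X : ℝ) / (4 * D * Real.log X) ≤ I.card := by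
    have e1 : (((Ioc 0 X).filter (fun r : ℕ => r.Prime ∧ r ≡ a [MOD D])).card : ℝ) ≤ I.card := by exact_mod_cast card_le_card hsubset
    refine le_trans (le_of_eq ?_) (hwin.trans e1)
    push_cast
    ring
  have hfree : n ≤ I.card * d ^ (2 * K₁ + J + 4) := by
    have e1 : (n : ℝ) ≤ I.card * (d : ℝ) ^ (2 * K₁ + J + 4) := by
      have hDr : (0 : ℝ) < D := by exact_mod_cast hD1
      rw [div_le_iff₀ (by positivity)] at hIc
      have hDr2 : (D : ℝ) ≤ (d : ℝ) ^ (2 * K₁ + J) := by exact_mod_cast hD2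
      calc (n : ℝ) ≤ X := by exact_mod_cast hXn
        _ ≤ I.card * (4 * D * Real.log X) := hIc
        _ ≤ I.card * (d * (d : ℝ) ^ (2 * K₁ + J) * (d : ℝ) ^ 2) := by gcongr; linarith
        _ ≤ I.card * ((d * (d : ℝ) ^ (2 * K₁ + J) * (d : ℝ) ^ 2) * d) := by
            apply mul_le_mul_of_nonneg_left _ (Nat.cast_nonneg _)
            exact le_mul_of_one_le_right (by positivity) (by linarith)
        _ = _ := by ring
    exact_mod_cast e1
  rw [← hI]
  refine ⟨hfree, ?_⟩
  have hIm : ∀ q ∈ I, q < 2 * n ∧ q.Prime ∧ (2 * n - q).Coprime (primorial y * h 0) := by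
    intro q hq
    rw [hI] at hq
    unfold Adm at hq
    rw [mem_filter, mem_range] at hq
    exact hq
  obtain ⟨f, hf⟩ : ∃ f : Fin 2 → ℕ → ℕ, f = ![fun q => 2 * n - q, fun q => pr (q + 2)] := ⟨_, rfl⟩
  have f0 : ∀ k, f 0 k = 2 * n - k := fun k => by rw [hf]; rfl
  have f1 : ∀ k, f 1 k = pr (k + 2) := fun k => by rw [hf]; rfl
  have hinj1 : Set.InjOn (f 1) I := by
    intro k hk k' hk' hkk
    rw [f1, f1] at hkk
    have := pr_inj (by omega) (by omega) hkk
    omega
  have hinj : ∀ j, Set.InjOn (f j) I := by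
    intro j
    fin_cases j
    · intro k hk k' hk' hkk
      have g1 := hIm k (by exact_mod_cast hk)
      have g2 := hIm k' (by exact_mod_cast hk')
      have hkk' : f 0 k = f 0 k' := hkk
      rw [f0, f0] at hkk'
      omega
    · exact hinj1
  have hd16 : 2 ≤ d ^ 4 := by
    calc 2 ≤ 8 ^ 4 := by norm_num
      _ ≤ d ^ 4 := Nat.pow_le_pow_left hd8 4
  have hXf : ∀ j, ∀ k ∈ I, 1 ≤ f j k ∧ f j k ≤ n * d ^ 4 := by
    intro j k hk
    obtain ⟨g1, g2, _⟩ := hIm k hk
    have g7 : n * 2 ≤ n * d ^ 4 := Nat.mul_le_mul_left _ hd16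
    fin_cases j
    · show 1 ≤ f 0 k ∧ f 0 k ≤ n * d ^ 4
      rw [f0]
      omega
    · show 1 ≤ f 1 k ∧ f 1 k ≤ n * d ^ 4
      rw [f1]
      exact ⟨(pr_prime _).one_le, (hpr (k + 2) (by omega)).1⟩
  have hbad : (I.filter (fun i => ∃ j, ¬ (f j i).Coprime (primorial y * h j))).card ≤ d ^ (2 * K₁ + J) := by
    calc (I.filter (fun i => ∃ j, ¬ (f j i).Coprime (primorial y * h j))).card
        ≤ (I.filter (fun i => ¬ (f 1 i).Coprime (primorial y * h 1))).card := by
          apply card_le_card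
          intro i hi
          rw [mem_filter] at hi ⊢
          obtain ⟨g1, j, g2⟩ := hi
          obtain ⟨_, _, g3⟩ := hIm i g1
          refine ⟨g1, ?_⟩
          fin_cases j
          · exfalso
            apply g2
            show (f 0 i).Coprime (primorial y * h 0)
            rw [f0]
            exact g3
          · exact g2
      _ ≤ primorial y * h 1 := bad_few I (f 1) hinj1 (fun i _ => by rw [f1]; exact pr_prime _) _ (hD 1).1
      _ ≤ _ := (hD 1).2
  have hIA : n * d ^ 4 ≤ I.card * d ^ (2 * K₁ + J + 8) := by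
    calc n * d ^ 4 ≤ (I.card * d ^ (2 * K₁ + J + 4)) * d ^ 4 := Nat.mul_le_mul_right _ hfree
      _ = _ := by rw [mul_assoc, ← pow_add]
  exact h0 d (by omega) μ hμ y hy1 hy2 c hc h hh (n * d ^ 4) (by
      calc b ^ d ≤ n * d ^ C := hn1
        _ ≤ (n * d ^ 4) * d ^ (C + 4) := by
            rw [mul_assoc]
            apply Nat.mul_le_mul_left
            rw [← pow_add]
            exact Nat.pow_le_pow_right (by omega) (by omega)) (by
      calc n * d ^ 4 ≤ (b ^ d * d ^ C) * d ^ 4 := Nat.mul_le_mul_right _ hn2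
        _ = _ := by rw [mul_assoc, ← pow_add]) I f hinj hXf hbad hIA
    (fun v => |Rep n (fun j => Nv y (h j) (c j) (κ j) (v j)) - I.card / (V y * (d * Real.log b)) ^ 2| ≤
          ε * (I.card / (V y * (d * Real.log b)) ^ 2)) (fun v hpos hv => by
    have hNm : ∀ j, Pool.Agent.N625.PT.Nm y (h j) (c j) (κ j) (v j) = Nv y (h j) (c j) (κ j) (v j) := fun _ => rfl
    have hDN : ∀ j, ((primorial y * h j : ℕ) : ℤ) ∣ Nv y (h j) (c j) (κ j) (v j) := fun j => by
      unfold Nv
      exact dvd_mul_right _ _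
    have e2 : ((I.filter (fun i => ∀ j : Fin 2, (Pool.Agent.N625.PT.Nm y (h j) (c j) (κ j) (v j) + (f j i : ℕ)).toNat.Prime)).card : ℝ) =
        Rep n (fun j => Nv y (h j) (c j) (κ j) (v j)) := by
      unfold Rep
      congr 2
      ext k
      rw [mem_filter, mem_filter, mem_range, Fin.forall_fin_two, hNm, hNm]
      have q0 : k < 2 * n → Nv y (h 0) (c 0) (κ 0) (v 0) + ((f 0 k : ℕ) : ℤ) = 2 * (n : ℤ) - k + Nv y (h 0) (c 0) (κ 0) (v 0) := by
        intro hk
        rw [f0, Nat.cast_sub (by omega)]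
        push_cast
        ring
      have q1 : Nv y (h 1) (c 1) (κ 1) (v 1) + ((f 1 k : ℕ) : ℤ) = (p (k + 2) : ℤ) + Nv y (h 1) (c 1) (κ 1) (v 1) := by
        rw [f1]
        exact add_comm _ _
      constructor
      · rintro ⟨g1, g2, g3⟩
        obtain ⟨k1, k2, _⟩ := hIm k g1
        rw [q0 k1] at g2
        rw [q1] at g3
        exact ⟨k1, k2, g2, g3⟩
      · rintro ⟨k1, k2, g2, g3⟩
        rw [← q0 k1] at g2
        rw [← q1] at g3
        refine ⟨?_, g2, g3⟩
        rw [hI]
        unfold Adm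
        rw [mem_filter, mem_range]
        refine ⟨k1, k2, ?_⟩
        rw [← f0]
        exact Pool.Agent.Run7.h414.HL.cop_of (by rw [f0]; omega) (hpos 0) (hDN 0) g2
    rw [e2] at hv
    exact hv)

end Pool.Agent.Results.MP_0ec542_nt.IndexConditionOnAverage
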