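import Mathlib
import Pool.Agent.Run7.h17.PT5

/-!
# Goldbach representations with a summand in residue classes: few pairwise coprime bad moduli

For almost all vectors of integers `s i` from families of nearly minimal additive energy (for example random even
integers, random elements of arbitrary sets of `N / log ^ C N` integers, random even values of a polynomial): call a
modulus `q` bad if the representations `s 1 = α 1 n + p 1, ..., s k = α k n + p k`, where `n` is counted with an arbitrary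
weight, are not distributed among ALL the classes of `n` modulo `q` as predicted by the sieve by small primes, up to
a total error of `N / log ^ U N`. Then every set of pairwise coprime bad moduli up to `Q ≤ N / log ^ c N` has at most
`log ^ c N (1 + Q ^ 2 / N)` elements; in particular at most `log ^ (c + 1) N` for `Q ≤ N ^ (1 / 2)`. For `k = 1`, `α 1 = 1`
and the weight `Λ(n)` these are the representations of `s 1` as a sum of two primes.

Used: the starting files `Pool.Agent.H373R2.T7` (sieve model and energies), `Pool.Agent.H560R3.GB` (von Mangoldt's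
function along families of small energy) and the large sieve of `Pool.Agent.Helper112`. From Mathlib:
`ArithmeticFunction.vonMangoldt` is von Mangoldt's function `Λ`; `Finset.Icc 1 x` are the integers from `1` to `x`,
`Finset.range q` those from `0` to `q - 1`.
-/

set_option autoImplicit false

namespace Pool.Agent.Results.MP_0ec542_nt.SummandsFewCoprimeModuli

open Finset

/-- The additive energy of order `p` of the family `s 1, ..., s x`: the number of solutions of
`s (v 1) + ... + s (v p) = s (w 1) + ... + s (w p)` with all `v i`, `w i` in `{1, ..., x}`. -/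
def energy (p x : ℕ) (s : ℕ → ℕ) : ℕ :=
  (((Fintype.piFinset fun _ : Fin p => Icc 1 x) ×ˢ (Fintype.piFinset fun _ : Fin p => Icc 1 x)).filter
    (fun q => ∑ i, s (q.1 i) = ∑ i, s (q.2 i))).card

/-- The family `s 1, ..., s x` lies in `[0, B N]`, and its additive energy of some order `p ≤ h` is at most
`log ^ C N` times `x ^ (2 p) / N`. -/
def Spread (h B C N x : ℕ) (s : ℕ → ℕ) : Prop :=
  (∀ m ∈ Icc 1 x, s m ≤ B * N) ∧
    ∃ p : ℕ, 1 ≤ p ∧ p ≤ h ∧ (energy p x s : ℝ) * N ≤ Real.log N ^ C * (x : ℝ) ^ (2 * p)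

/-- The sieve model of von Mangoldt's function: the integers without prime factors up to `z` have the weight
`∏_{p ≤ z} (1 - 1 / p)⁻¹`, the other integers the weight `0`. -/
noncomputable def model (z n : ℕ) : ℝ :=
  if ∀ p ∈ (Icc 1 z).filter Nat.Prime, ¬ p ∣ n then (∏ p ∈ (Icc 1 z).filter Nat.Prime, (1 - 1 / (p : ℝ)))⁻¹ else 0

/-- The sum over the `n ≤ X` in the class `b` modulo `q`, with `α i n < s i` for all `i`, of
`θ(n) (∏_i Λ(s i - α i n) - ∏_i model(s i - α i n))`. -/
noncomputable def classError {k : ℕ} (z : ℕ) (θ : ℕ → ℝ) (α s : Fin k → ℕ) (q b X : ℕ) : ℝ :=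
  ∑ n ∈ (Icc 1 X).filter (fun n => n % q = b ∧ ∀ i, α i * n < s i),
    θ n * (∏ i, ArithmeticFunction.vonMangoldt (s i - α i * n) - ∏ i, model z (s i - α i * n))

/-- The modulus `q` is bad: for some lengths `Y b`, the sum over all classes `b` modulo `q` of the absolute values of the
differences, over the `n ≤ Y b` in the class, of the weighted number of representations and its sieve model is larger
than `N / log ^ U N`. -/
def Bad (U N z : ℕ) {k : ℕ} (θ : ℕ → ℝ) (α s : Fin k → ℕ) (q : ℕ) : Prop :=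
  ∃ Y : ℕ → ℕ, N / Real.log N ^ U < ∑ b ∈ range q, |classError z θ α s q b (Y b)|

/-- For every `Q ≤ N / log ^ c N`, every set of pairwise coprime bad moduli `q ≤ Q` has at most
`log ^ c N (1 + Q ^ 2 / N)` elements. -/
def FewBad (c U N z : ℕ) {k : ℕ} (θ : ℕ → ℝ) (α s : Fin k → ℕ) : Prop :=
  ∀ Q : ℕ, Q * Real.log N ^ c ≤ N → ∀ M : Finset ℕ, (∀ q ∈ M, 1 ≤ q ∧ q ≤ Q) →
    (∀ q ∈ M, ∀ q' ∈ M, q ≠ q' → Nat.Coprime q q') → (∀ q ∈ M, Bad U N z θ α s q) →
    (M.card : ℝ) ≤ Real.log N ^ c * (1 + (Q : ℝ) ^ 2 / N)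

lemma energy_eq (h x : ℕ) (s : ℕ → ℕ) :
    Pool.Agent.H373R2.T7.energy h x (fun m => (s m : ℤ)) = energy h x s := by
  unfold energy Pool.Agent.H373R2.T7.energy
  congr 1
  apply filter_congr
  intro q _
  change (∑ i, ((s (q.1 i) : ℕ) : ℤ) = ∑ i, ((s (q.2 i) : ℕ) : ℤ)) ↔ _
  constructor
  · intro h; exact_mod_cast h
  · intro h; exact_mod_cast h

lemma spread_energy (h B C N x : ℕ) (s : ℕ → ℕ) (hs : Spread h B C N x s) :
    (Pool.Agent.H373R2.T7.energy h x (fun m => (s m : ℤ)) : ℝ) * N ≤ Real.log N ^ C * (x : ℝ) ^ (2 * h) := by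
  obtain ⟨_, p, _, hp, hE⟩ := hs
  rw [← energy_eq] at hE
  exact Run7.h223.LE.spread_mono C p h x N hp _ hE

lemma classError_eq {k : ℕ} (hk : 0 < k) (z : ℕ) (θ : ℕ → ℝ) (α s : Fin k → ℕ) (hα : ∀ i, 1 ≤ α i) (H : ℕ)
    (hs : ∀ i, s i ≤ H) (q b X : ℕ) :
    classError z θ α s q b X =
    ∑ n ∈ Icc 1 (min X (Pool.Agent.Run7.h17.JB.top (fun i => (-(α i : ℤ)).natAbs) univ H)), if n % q = b then
      θ n * Pool.Agent.Run7.h17.PT.df z (fun i => -(α i : ℤ)) (fun i => (s i : ℤ)) n else 0 :=
  Pool.Agent.Run7.h17.PT.sum_neg hk z θ α s hα H hs q b X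

open Classical in
/-- Let `k ≥ 1` and `h, B, C, κ, U` be fixed. There are `c` and `B₀` such that for all `E` and all large `N` the following
holds for all families `s i 1, ..., s i (x i)`, `i < k`, of integers in `[0, B N]` whose additive energy of some order
`≤ h` is minimal up to the factor `log ^ C N`, all multipliers `α i ≥ 1`, all `z` between `log ^ B₀ N` and `log ^ E N`, and
all families of at most `log ^ κ N` weights `θ l`, bounded by `log ^ κ N` on `[1, B N]`. For all vectors `(s i (m i))_i`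
of members of the families but at most the proportion `1 / log ^ U N` of them, for all `l`: for all `Q ≤ N / log ^ c N`,
every set of pairwise coprime moduli `q ≤ Q` which are bad for the sums of `θ l (n) ∏_i Λ(s i (m i) - α i n)` over the
classes modulo `q` has at most `log ^ c N (1 + Q ^ 2 / N)` elements. -/
theorem result (k h B C κ U : ℕ) (hk : 1 ≤ k) : ∃ c B₀ : ℕ, ∀ E : ℕ, ∃ N₀ : ℕ, ∀ N : ℕ, N₀ ≤ N →
    ∀ (x : Fin k → ℕ) (s : Fin k → ℕ → ℕ), (∀ i, Spread h B C N (x i) (s i)) →
    ∀ α : Fin k → ℕ, (∀ i, 1 ≤ α i) → ∀ z : ℕ, Real.log N ^ B₀ ≤ z → (z : ℝ) ≤ Real.log N ^ E →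
    ∀ L : ℕ, (L : ℝ) ≤ Real.log N ^ κ → ∀ θ : Fin L → ℕ → ℝ,
    (∀ l n, 1 ≤ n → n ≤ B * N → |θ l n| ≤ Real.log N ^ κ) →
    (((Fintype.piFinset (fun i => Icc 1 (x i))).filter (fun m : Fin k → ℕ =>
      ¬ ∀ l, FewBad c U N z (θ l) α (fun i => s i (m i)))).card : ℝ) ≤
      (∏ i, (x i : ℝ)) / Real.log N ^ U := by
  obtain ⟨c, B0, hB0⟩ := Pool.Agent.Run7.h17.PT.tuple_copr k h B C κ U hk
  refine ⟨c, B0, fun E => ?_⟩
  obtain ⟨N0, h1⟩ := hB0 E
  refine ⟨N0, fun N hN x s hs α hα z hz1 hz2 L hL θ hθ => ?_⟩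
  have key := h1 N hN x (fun i m => (s i m : ℤ)) (fun i m hm => by
      rw [Nat.abs_cast]
      exact_mod_cast (hs i).1 m hm) (fun i => spread_energy h B C N (x i) (s i) (hs i)) (fun i => -(α i : ℤ))
    (fun i => by have := hα i; omega) z hz1 hz2 L hL θ (fun l n hn h2 => hθ l n hn (by
      have h3 := h2 ⟨0, hk⟩
      have h4 : (-(α ⟨0, hk⟩ : ℤ)).natAbs = α ⟨0, hk⟩ := by omega
      rw [h4] at h3
      exact (Nat.le_mul_of_pos_left _ (hα _)).trans h3))
  refine le_trans (Nat.cast_le.mpr (card_le_card ?_)) key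
  intro m hm
  rw [mem_filter] at hm ⊢
  have hmm : ∀ i, s i (m i) ≤ B * N := fun i => (hs i).1 (m i) (Fintype.mem_piFinset.mp hm.1 i)
  refine ⟨hm.1, fun hgood => hm.2 ?_⟩
  intro l Q hQ M hM hc hbad
  refine hgood l Q hQ M hM hc ?_
  intro q hq
  obtain ⟨Y, hb⟩ := hbad q hq
  refine ⟨fun b => min (Y b) (Pool.Agent.Run7.h17.JB.top (fun i => (-(α i : ℤ)).natAbs) univ (B * N)), fun b i =>
      (Nat.mul_le_mul_left _ (min_le_right _ _)).trans
        (Pool.Agent.Run7.h17.JB.top_spec (fun i => (-(α i : ℤ)).natAbs) univ (B * N) i (mem_univ i)),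
    lt_of_lt_of_le hb (le_of_eq ?_)⟩
  refine sum_congr rfl fun b _ => ?_
  rw [classError_eq hk z (θ l) α (fun i => s i (m i)) hα (B * N) hmm q b (Y b)]

end Pool.Agent.Results.MP_0ec542_nt.SummandsFewCoprimeModuli
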